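import Pool.Agent.Lib.lead.CXGraphRed
import Pool.Agent.Lib.helper4.CXCo

set_option autoImplicit false

namespace Pool.Agent.Results.MP_636301_lc.Full

open Pool.Agent.Lib.CX Pool.Agent.Lib.helper4 Set

/-- `k` different, internally disjoint odd `(X,Y)`-paths in the multigraph with edge list `E`. -/
def OddPaths {V : Type} (E : List (V × V)) (k : ℕ) (X Y : List V) : Prop :=
  ∃ (L : Fin k → ℕ) (f : Fin k → ℕ → V) (g : Fin k → ℕ → ℕ),
    (∀ a, Odd (L a) ∧ InjOn (f a) (Iic (L a)) ∧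
      (∀ i < L a, E[g a i]? = some (f a i, f a (i + 1)) ∨ E[g a i]? = some (f a (i + 1), f a i)) ∧
      f a 0 ∈ X ∧ f a (L a) ∈ Y ∧ ∀ i, 0 < i → i < L a → f a i ∉ X ∧ f a i ∉ Y) ∧
    ∀ a b, a ≠ b → g a '' Iio (L a) ≠ g b '' Iio (L b) ∧
      ∀ i j, 0 < i → i < L a → 0 < j → j < L b → f a i ≠ f b j

/-- well-formed instances -/
def Valid (a : Gr × ℕ × List ℕ × List ℕ) : Prop :=
  (∀ e ∈ a.1.2, e.1 < a.1.n ∧ e.2 < a.1.n) ∧ 0 < a.2.1 ∧
    (a.2.2.1.Nodup ∧ a.2.2.1.length = a.2.1 ∧ ∀ x ∈ a.2.2.1, x < a.1.n) ∧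
    (a.2.2.2.Nodup ∧ a.2.2.2.length = a.2.1 ∧ ∀ y ∈ a.2.2.2, y < a.1.n)

lemma ends {V : Type} {E : List (V × V)} {S : Set V} (hE : ∀ e ∈ E, e.1 ∈ S ∧ e.2 ∈ S)
    {L : ℕ} {f : ℕ → V} {g : ℕ → ℕ} (h0 : Odd L)
    (h : ∀ i < L, E[g i]? = some (f i, f (i + 1)) ∨ E[g i]? = some (f (i + 1), f i))
    (i : ℕ) (hi : i ≤ L) : f i ∈ S := by
  have k : ∀ i < L, f i ∈ S ∧ f (i + 1) ∈ S := fun i hi => by
    rcases h i hi with e | e <;> have := hE _ (List.mem_of_getElem? e)
    exacts [this, this.symm]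
  rcases i with _ | i
  · exact (k 0 h0.pos).1
  · exact (k i hi).2

lemma OddPaths.map {V W : Type} {E : List (V × V)} {k : ℕ} {X Y : List V} (r : V → W) {S : Set V}
    (h : InjOn r S) (hE : ∀ e ∈ E, e.1 ∈ S ∧ e.2 ∈ S) (hX : ∀ x ∈ X, x ∈ S) (hY : ∀ x ∈ Y, x ∈ S)
    (H : OddPaths E k X Y) : OddPaths (E.map fun e => (r e.1, r e.2)) k (X.map r) (Y.map r) := by
  obtain ⟨L, f, g, h1, h2⟩ := H
  have s := fun a => ends hE (h1 a).1 (h1 a).2.2.1
  have nm : ∀ (Z : List V), (∀ x ∈ Z, x ∈ S) → ∀ v ∈ S, v ∉ Z → r v ∉ Z.map r := by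
    intro Z hZ v hv h3 h4
    obtain ⟨w, h5, h6⟩ := List.mem_map.1 h4
    exact h3 (h (hZ w h5) hv h6 ▸ h5)
  refine ⟨L, fun a i => r (f a i), g, fun a => ?_, fun a b ab => ⟨(h2 a b ab).1, ?_⟩⟩
  · obtain ⟨a1, a2, a3, a4, a5, a6⟩ := h1 a
    refine ⟨a1, fun i hi j hj e => a2 hi hj (h (s a i hi) (s a j hj) e), fun i hi => ?_,
      List.mem_map_of_mem a4, List.mem_map_of_mem a5, fun i h3 h4 =>
        ⟨nm X hX _ (s a i h4.le) (a6 i h3 h4).1, nm Y hY _ (s a i h4.le) (a6 i h3 h4).2⟩⟩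
    rcases a3 i hi with e | e <;> simp [e]
  · exact fun i j h3 h4 h5 h6 e => (h2 a b ab).2 i j h3 h4 h5 h6 (h (s a i h4.le) (s b j h6.le) e)

lemma OddPaths.mk {V : Type} {E : List (V × V)} {k : ℕ} {X Y : List V} (L : Fin k → ℕ)
    (f : Fin k → ℕ → V) (h1 : ∀ a, Odd (L a) ∧ 2 < L a ∧ InjOn (f a) (Iic (L a)) ∧
      (∀ i < L a, (f a i, f a (i + 1)) ∈ E ∨ (f a (i + 1), f a i) ∈ E) ∧
      f a 0 ∈ X ∧ f a (L a) ∈ Y ∧ ∀ i, 0 < i → i < L a → f a i ∉ X ∧ f a i ∉ Y)
    (h2 : ∀ a b, a ≠ b → ∀ i j, 0 < i → i < L a → 0 < j → j < L b → f a i ≠ f b j) :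
    OddPaths E k X Y := by
  have : ∀ a i, ∃ e : ℕ, i < L a →
      E[e]? = some (f a i, f a (i + 1)) ∨ E[e]? = some (f a (i + 1), f a i) := fun a i => by
    by_cases h : i < L a
    · rcases (h1 a).2.2.2.1 i h with e | e <;> obtain ⟨n, hn⟩ := List.mem_iff_getElem?.1 e
      exacts [⟨n, fun _ => .inl hn⟩, ⟨n, fun _ => .inr hn⟩]
    · exact ⟨0, fun h3 => absurd h3 h⟩
  choose g hg using this
  refine ⟨L, f, g, fun a => ⟨(h1 a).1, (h1 a).2.2.1, hg a, (h1 a).2.2.2.2⟩,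
    fun a b ab => ⟨fun e => ?_, h2 a b ab⟩⟩
  have la := (h1 a).2.1
  have lb := (h1 b).2.1
  obtain ⟨j, hj, e1⟩ : g a 1 ∈ g b '' Iio (L b) := e ▸ ⟨1, by simp; omega, rfl⟩
  have e2 := hg a 1 (by omega)
  have e3 := hg b j hj
  rw [e1] at e3
  have n := fun i j (h3 : 0 < i) (h4 : i ≤ 2) => h2 a b ab i j h3 (by omega)
  rw [mem_Iio] at hj
  rcases j with _ | j
  · rcases e2 with e2 | e2 <;> rcases e3 with e3 | e3 <;> rw [e2] at e3 <;>
      simp only [Option.some.injEq, Prod.mk.injEq] at e3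
    exacts [n 2 1 (by omega) le_rfl one_pos (by omega) e3.2, n 1 1 one_pos (by omega) one_pos (by omega) e3.1,
      n 1 1 one_pos (by omega) one_pos (by omega) e3.2, n 2 1 (by omega) le_rfl one_pos (by omega) e3.1]
  · rcases e2 with e2 | e2 <;> rcases e3 with e3 | e3 <;> rw [e2] at e3 <;>
      simp only [Option.some.injEq, Prod.mk.injEq] at e3
    exacts [n 1 _ one_pos (by omega) j.succ_pos hj e3.1, n 2 _ (by omega) le_rfl j.succ_pos hj e3.2,
      n 2 _ (by omega) le_rfl j.succ_pos hj e3.1, n 1 _ one_pos (by omega) j.succ_pos hj e3.2]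

abbrev W := ℕ × ℕ × ℕ
abbrev F := List (Cl3 ℕ)

def lits (C : Cl3 ℕ) : List (ℕ × Bool) := [C.1, C.2.1, C.2.2]
def occ (φ : F) (j v s : ℕ) : Prop := ∃ l ∈ (φ.map lits).getD j [], l.1 = v ∧ 4 + l.2.toNat = s
instance (φ : F) (j v s : ℕ) : Decidable (occ φ j v s) := by unfold occ; infer_instance

def rel (N T : ℕ) (o : ℕ → ℕ → ℕ → Prop) (p q : W) : Prop :=
  (p.1 = 0 ∧ q.1 = 1 ∧ p.2.1 = q.2.1) ∨ (p.1 = 2 ∧ q.1 = 3 ∧ p.2.1 = q.2.1) ∨
  (p.1 = 1 ∧ 4 ≤ q.1 ∧ ((q.2.1 = p.2.1 ∧ q.2.2 = 0) ∨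
    (N ≤ p.2.1 ∧ q.2.2 = 2 * (p.2.1 - N) + 1 ∧ o (p.2.1 - N) q.2.1 q.1))) ∨
  (q.1 = 2 ∧ 4 ≤ p.1 ∧ ((p.2.1 = q.2.1 ∧ p.2.2 + 1 = T) ∨
    (N ≤ q.2.1 ∧ p.2.2 = 2 * (q.2.1 - N) ∧ o (q.2.1 - N) p.2.1 p.1))) ∨
  (4 ≤ p.1 ∧ q.1 = p.1 ∧ q.2.1 = p.2.1 ∧ q.2.2 = p.2.2 + 1)

instance (N T : ℕ) (φ : F) (p q : W) : Decidable (rel N T (occ φ) p q) := by
  unfold rel; infer_instance

def vs (φ : F) : List W :=
  List.range 4 ×ˢ List.range (4 * φ.length + 1) ×ˢ [0] ++
    [4, 5] ×ˢ List.range (3 * φ.length + 1) ×ˢ List.range (2 * φ.length + 2)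

def es (φ : F) : List (W × W) :=
  (vs φ ×ˢ vs φ).filter fun e => rel (3 * φ.length + 1) (2 * φ.length + 2) (occ φ) e.1 e.2

def tm (φ : F) (t : ℕ) : List W := (List.range (4 * φ.length + 1)).map fun i => (t, i, 0)

def inV (m : ℕ) (p : W) : Prop := (p.1 < 4 ∧ p.2.1 < 4 * m + 1 ∧ p.2.2 = 0) ∨
  ((p.1 = 4 ∨ p.1 = 5) ∧ p.2.1 < 3 * m + 1 ∧ p.2.2 < 2 * m + 2)

variable {φ : F}

lemma mem_vs {p : W} : p ∈ vs φ ↔ inV φ.length p := by
  obtain ⟨a, b, c⟩ := p
  simp [vs, inV]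
  omega

lemma mem_es {p q : W} : (p, q) ∈ es φ ↔ (inV φ.length p ∧ inV φ.length q) ∧
    rel (3 * φ.length + 1) (2 * φ.length + 2) (occ φ) p q := by
  simp [es, mem_vs]

lemma mem_tm {p : W} {t : ℕ} : p ∈ tm φ t ↔ p.1 = t ∧ p.2.1 < 4 * φ.length + 1 ∧ p.2.2 = 0 := by
  obtain ⟨a, b, c⟩ := p
  simp only [tm, List.mem_map, List.mem_range, Prod.mk.injEq]
  exact ⟨by rintro ⟨_, h, rfl, rfl, rfl⟩; exact ⟨rfl, h, rfl⟩,
    by rintro ⟨rfl, h, rfl⟩; exact ⟨_, h, rfl, rfl, rfl⟩⟩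

lemma rel.mono {N T : ℕ} {o o' : ℕ → ℕ → ℕ → Prop} {p q : W} (k : ∀ a b c, o a b c → o' a b c)
    (h : rel N T o p q) : rel N T o' p q :=
  h.imp_right (.imp_right (.imp (.imp_right (.imp_right (.imp_right (.imp_right (.imp_right (k _ _ _))))))
    (.imp_left (.imp_right (.imp_right (.imp_right (.imp_right (.imp_right (k _ _ _)))))))))

lemma wext {p q : W} (h : p.1 = q.1 ∧ p.2.1 = q.2.1 ∧ p.2.2 = q.2.2) : p = q :=
  Prod.ext h.1 (Prod.ext h.2.1 h.2.2)

lemma ok_iff {v : ℕ → Bool} {C : Cl3 ℕ} : C.ok v ↔ ∃ l ∈ lits C, v l.1 = l.2 := by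
  simp [Cl3.ok, lits]

lemma fwd (hv : ∀ C ∈ φ, ∀ x ∈ C.vars, x < 3 * φ.length) (h : Sat3 φ) :
    OddPaths (es φ) (4 * φ.length + 1) (tm φ 0) (tm φ 3) := by
  obtain ⟨v, h⟩ := h
  have : ∀ j, ∃ x, j < φ.length → x < 3 * φ.length ∧ occ φ j x (4 + (v x).toNat) := fun j => by
    by_cases hj : j < φ.length
    · obtain ⟨l, h1, h2⟩ := ok_iff.1 (h _ (List.getElem_mem hj))
      refine ⟨l.1, fun _ => ⟨hv _ (List.getElem_mem hj) _ ?_, l, by simpa [hj] using h1, rfl, by rw [h2]⟩⟩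
      simp only [lits, Cl3.vars, List.mem_cons, List.not_mem_nil, or_false] at h1 ⊢
      rcases h1 with rfl | rfl | rfl <;> simp
    · exact ⟨0, fun h1 => absurd h1 hj⟩
  choose x hx using this
  generalize hm : φ.length = m at *
  have b1 : ∀ y, (v y).toNat ≤ 1 := fun y => Bool.toNat_le _
  let L : ℕ → ℕ := fun a => if a < 3 * m + 1 then 2 * m + 5 else 5
  let f : ℕ → ℕ → W := fun a i => if i < 2 then (i, a, 0) else if L a ≤ i + 1 then
    (i + 3 - L a, a, 0) else if a < 3 * m + 1 then (5 - (v a).toNat, a, i - 2) else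
    (4 + (v (x (a - (3 * m + 1)))).toNat, x (a - (3 * m + 1)), 2 * (a - (3 * m + 1)) + 3 - i)
  refine OddPaths.mk (fun a => L a) (fun a => f a) (fun a => ?_) fun a b ab i j h1 h2 h3 h4 e => ?_
  · have ha := a.2
    have h1 := b1 a
    have h2 := b1 (x (a - (3 * m + 1)))
    have h3 := hx (a - (3 * m + 1))
    refine ⟨?_, ?_, fun i hi j hj e => ?_, fun i hi => ?_, ?_, ?_, fun i h4 h5 => ?_⟩
    · simp only [L]; split_ifs <;> exact Nat.odd_iff.2 (by omega)
    · simp only [L]; split_ifs <;> omega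
    · simp only [mem_Iic, f, L] at hi hj e
      split_ifs at hi hj e <;> simp only [Prod.mk.injEq] at e <;> omega
    · simp only [mem_es, hm]
      by_cases h4 : a < 3 * m + 1
      · simp only [f, L, h4, if_true] at hi ⊢
        left
        refine ⟨⟨?_, ?_⟩, ?_⟩
        · unfold inV; split_ifs <;> dsimp only <;> omega
        · unfold inV; split_ifs <;> dsimp only <;> omega
        · unfold rel
          split_ifs <;> dsimp only
          exacts [.inl (by omega), by omega, .inr (.inr (.inl ⟨by omega, by omega, .inl (by omega)⟩)),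
            by omega, .inr (.inl (by omega)), by omega, by omega,
            .inr (.inr (.inr (.inl ⟨by omega, by omega, .inl (by omega)⟩))),
            .inr (.inr (.inr (.inr (by omega))))]
      · obtain ⟨h5, h6⟩ := h3 (by omega)
        simp only [f, L, h4, if_false, inV, rel] at hi ⊢
        generalize (v (x (a - (3 * m + 1)))).toNat = z at *
        generalize x (a - (3 * m + 1)) = y at *
        interval_cases i <;> simp [h6] <;> omega
    · simp [mem_tm, f, hm, ha]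
    · simp only [mem_tm, f, hm, L]
      split_ifs <;> simp <;> omega
    · simp only [mem_tm, f, hm, L] at h5 ⊢
      split_ifs at h5 ⊢ <;> simp <;> omega
  · have ab' : a.1 ≠ b.1 := fun e => ab (Fin.ext e)
    have := b1 a
    have := b1 b
    have := b1 (x (a - (3 * m + 1)))
    have := b1 (x (b - (3 * m + 1)))
    simp only [f, L] at h2 h4 e
    split_ifs at h2 h4 e <;> simp only [Prod.mk.injEq] at e
    all_goals first | omega | (obtain ⟨e1, e2, -⟩ := e; simp only [e2] at *; omega)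

lemma bwd (H : OddPaths (es φ) (4 * φ.length + 1) (tm φ 0) (tm φ 3)) : Sat3 φ := by
  obtain ⟨L, f, g, h1, h2⟩ := H
  have inj := fun a i j (hi : i ≤ L a) (hj : j ≤ L a) (e) => (h1 a).2.1 hi hj (wext e)
  have dis := fun a b ab i j h3 h4 h5 h6 (e) => (h2 a b ab).2 i j h3 h4 h5 h6 (wext e)
  have od : ∀ a, L a % 2 = 1 := fun a => Nat.odd_iff.1 (h1 a).1
  have s0 := fun a => mem_tm.1 (h1 a).2.2.2.1
  have s1 := fun a => mem_tm.1 (h1 a).2.2.2.2.1
  have nt := fun a i h3 h4 => (h1 a).2.2.2.2.2 i h3 h4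
  simp only [mem_tm] at nt
  have ad : ∀ a, ∀ i < L a, (inV φ.length (f a i) ∧ inV φ.length (f a (i + 1))) ∧
      (rel (3 * φ.length + 1) (2 * φ.length + 2) (occ φ) (f a i) (f a (i + 1)) ∨
        rel (3 * φ.length + 1) (2 * φ.length + 2) (occ φ) (f a (i + 1)) (f a i)) := fun a i hi => by
    rcases (h1 a).2.2.1 i hi with e | e <;> have := mem_es.1 (List.mem_of_getElem? e)
    exacts [⟨this.1, .inl this.2⟩, ⟨this.1.symm, .inr this.2⟩]
  clear h1 h2 g
  have ad0 := fun a i hi => (ad a i hi).imp_right (Or.imp (rel.mono fun _ _ _ _ => trivial)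
    (rel.mono fun _ _ _ _ => trivial))
  simp only [inV, rel, and_true] at ad0
  generalize hm : φ.length = m at *
  have a1 : ∀ a, (f a 1).1 = 1 ∧ (f a 1).2.1 = (f a 0).2.1 ∧ (f a 1).2.2 = 0 ∧ 2 < L a := fun a => by
    have := od a
    have := s0 a
    have := ad0 a 0 (by omega)
    have h3 : (f a 1).1 = 1 ∧ (f a 1).2.1 = (f a 0).2.1 ∧ (f a 1).2.2 = 0 := by
      rw [zero_add] at this
      omega
    refine ⟨h3.1, h3.2.1, h3.2.2, by_contra fun h4 => ?_⟩
    have := s1 a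
    rw [show L a = 1 by omega] at this
    omega
  have a2 : ∀ a, (f a (L a - 1)).1 = 2 ∧ (f a (L a - 1)).2.1 = (f a (L a)).2.1 ∧
      (f a (L a - 1)).2.2 = 0 := fun a => by
    have := od a
    have := s1 a
    have := ad0 a (L a - 1) (by omega)
    rw [show L a - 1 + 1 = L a by omega] at this
    omega
  have sx : Function.Surjective fun a => (⟨_, (s0 a).2.1⟩ : Fin (4 * m + 1)) :=
    Finite.surjective_of_injective fun a b e => by_contra fun ab => by
      have := a1 a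
      have := a1 b
      rw [Fin.mk.injEq] at e
      exact dis a b ab 1 1 one_pos (by omega) one_pos (by omega) (by omega)
  have sy : Function.Surjective fun a => (⟨_, (s1 a).2.1⟩ : Fin (4 * m + 1)) :=
    Finite.surjective_of_injective fun a b e => by_contra fun ab => by
      have := a1 a
      have := a1 b
      have := a2 a
      have := a2 b
      rw [Fin.mk.injEq] at e
      exact dis a b ab (L a - 1) (L b - 1) (by omega) (by omega) (by omega) (by omega) (by omega)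
  have ch : ∀ a i, 1 < i → i + 1 < L a → 4 ≤ (f a i).1 := fun a i h3 h4 => by_contra fun h5 => by
    have h6 := nt a i (by omega) (by omega)
    have h7 := (ad0 a i (by omega)).1.1
    obtain ⟨b, hb⟩ := sx ⟨(f a i).2.1, by omega⟩
    obtain ⟨c, hc⟩ := sy ⟨(f a i).2.1, by omega⟩
    rw [Fin.mk.injEq] at hb hc
    have := a1 b
    have := a1 c
    have := a2 c
    by_cases h8 : (f a i).1 = 1
    · by_cases ab : a = b
      · subst ab
        have := inj a i 1 (by omega) (by omega) (by omega)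
        omega
      · exact dis a b ab i 1 (by omega) (by omega) one_pos (by omega) (by omega)
    · by_cases ac : a = c
      · subst ac
        have := inj a i (L a - 1) (by omega) (by omega) (by omega)
        omega
      · exact dis a c ac i (L c - 1) (by omega) (by omega) (by omega) (by omega) (by omega)
  have a3 : ∀ a, rel (3 * m + 1) (2 * m + 2) (occ φ) (f a 1) (f a 2) ∧ 4 ≤ (f a 2).1 := fun a => by
    have := a1 a
    have := s0 a
    have := mt (inj a 2 0 (by omega) (by omega)) (by omega)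
    have h3 := (ad0 a 1 (by omega)).1.2
    have h4 := (ad a 1 (by omega)).2
    rw [one_add_one_eq_two] at h3 h4
    have h5 := h4.resolve_right fun h5 => by
      have := h5.mono (o' := fun _ _ _ => True) fun _ _ _ _ => trivial
      simp only [rel, and_true] at this
      omega
    have := h5.mono (o' := fun _ _ _ => True) fun _ _ _ _ => trivial
    simp only [rel, and_true] at this
    exact ⟨h5, by omega⟩
  have vc : ∀ a, (f a 0).2.1 < 3 * m + 1 → ∀ t < 2 * m + 2, t + 3 < L a ∧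
      (f a (t + 2)).1 = (f a 2).1 ∧ (f a (t + 2)).2.1 = (f a 0).2.1 ∧ (f a (t + 2)).2.2 = t := by
    intro a ha t
    have := a1 a
    have b2 := a2 a
    have := od a
    have b3 := a3 a
    induction t using Nat.strong_induction_on with
    | _ t ih =>
      intro ht
      rcases t with _ | t
      · have := b3.1.mono (o' := fun _ _ _ => True) fun _ _ _ _ => trivial
        simp only [rel, and_true] at this
        have : L a - 1 ≠ 2 := fun e => by rw [e] at b2; omega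
        rw [zero_add, zero_add]
        omega
      · have h3 := ih t (by omega) (by omega)
        have h4 := ad0 a (t + 2) (by omega)
        have h5 := mt (inj a (t + 2 + 1) (t + 1) (by omega) (by omega)) (by omega)
        have h6 : (t = 0 ∧ (f a (t + 1)).1 = 1 ∧ (f a (t + 1)).2.1 = (f a 0).2.1 ∧ (f a (t + 1)).2.2 = 0) ∨
            ((f a (t + 1)).1 = (f a 2).1 ∧ (f a (t + 1)).2.1 = (f a 0).2.1 ∧
              (f a (t + 1)).2.2 + 1 = t) := by
          rcases t with _ | t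
          · rw [zero_add]
            omega
          · have := ih t (by omega) (by omega)
            rw [show t + 1 + 1 = t + 2 from rfl]
            omega
        rw [show t + 1 + 2 = t + 2 + 1 from rfl]
        by_cases h7 : t + 4 < L a
        · have := ch a (t + 2 + 1) (by omega) h7
          omega
        · rw [show L a - 1 = t + 2 + 1 by omega] at b2
          omega
  choose pa hp using sx
  refine ⟨fun x => if h : x < 4 * m + 1 then decide ((f (pa ⟨x, h⟩) 2).1 = 4) else false,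
    fun C hC => ok_iff.2 ?_⟩
  obtain ⟨j, hj, rfl⟩ := List.getElem_of_mem hC
  let a := pa ⟨3 * m + 1 + j, by omega⟩
  have ha : (f a 0).2.1 = 3 * m + 1 + j := congrArg Fin.val (hp _)
  have := a1 a
  have h3 := (ad0 a 2 (by omega)).1.1
  obtain ⟨h4, h5⟩ := a3 a
  have h6 : (f a 2).2.2 = 2 * j + 1 ∧ occ φ j (f a 2).2.1 (f a 2).1 := by
    unfold rel at h4
    rw [show (f a 1).2.1 - (3 * m + 1) = j by omega] at h4
    rcases h4 with h | h | ⟨-, -, h | h⟩ | h | h
    exacts [by omega, by omega, by omega, h.2, by omega, by omega]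
  obtain ⟨h6, l, h7, h8, h9⟩ := h6
  have hl : l.1 < 4 * m + 1 := by omega
  refine ⟨l, by simpa [hj] using h7, ?_⟩
  rw [dif_pos hl]
  have hb : (f (pa ⟨l.1, hl⟩) 0).2.1 = l.1 := congrArg Fin.val (hp _)
  generalize pa ⟨l.1, hl⟩ = b at *
  have := vc b (by omega) (2 * j + 1) (by omega)
  have := mt (dis a b (fun e => by subst e; omega) 2 (2 * j + 1 + 2) two_pos (by omega) (by omega)
    (by omega)) not_false
  have := (ad0 b 2 (by omega)).1.1
  have := (a3 b).2
  rcases l with ⟨x, _ | _⟩ <;> simp at h9 ⊢ <;> omega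

abbrev I := Gr × ℕ × List ℕ × List ℕ

section
variable {V : Type} [DecidableEq V] {vs : List V} {es : List (V × V)} {k : ℕ} {X Y : List V}

def mkI (vs : List V) (es : List (V × V)) (k : ℕ) (X Y : List V) : I :=
  (mkGr vs es, k, X.map fun x => vs.dedup.idxOf x, Y.map fun x => vs.dedup.idxOf x)

lemma mkI_valid (hE : ∀ e ∈ es, e.1 ∈ vs.dedup ∧ e.2 ∈ vs.dedup) (hk : 0 < k)
    (hX : X.Nodup ∧ X.length = k ∧ ∀ x ∈ X, x ∈ vs.dedup)
    (hY : Y.Nodup ∧ Y.length = k ∧ ∀ x ∈ Y, x ∈ vs.dedup) : Valid (mkI vs es k X Y) := by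
  have h : ∀ Z : List V, (Z.Nodup ∧ Z.length = k ∧ ∀ x ∈ Z, x ∈ vs.dedup) →
      (Z.map fun x => vs.dedup.idxOf x).Nodup ∧ (Z.map fun x => vs.dedup.idxOf x).length = k ∧
      ∀ x ∈ Z.map fun x => vs.dedup.idxOf x, x < (mkGr vs es).n := fun Z hZ => by
    refine ⟨List.Nodup.map_on (fun x hx y _ e => (List.idxOf_inj (hZ.2.2 x hx)).1 e) hZ.1,
      by simp [hZ.2.1], ?_⟩
    rw [mkGr_n]
    exact List.forall_mem_map.2 fun x hx => List.idxOf_lt_length_of_mem (hZ.2.2 x hx)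
  refine ⟨?_, hk, h X hX, h Y hY⟩
  simp only [mkI, mkGr_n]
  exact List.forall_mem_map.2 fun e he => ⟨List.idxOf_lt_length_of_mem (hE e he).1,
    List.idxOf_lt_length_of_mem (hE e he).2⟩

lemma mkI_iff (d : V) (hE : ∀ e ∈ es, e.1 ∈ vs.dedup ∧ e.2 ∈ vs.dedup) (hk : 0 < k)
    (hX : X.Nodup ∧ X.length = k ∧ ∀ x ∈ X, x ∈ vs.dedup)
    (hY : Y.Nodup ∧ Y.length = k ∧ ∀ x ∈ Y, x ∈ vs.dedup) : OddPaths es k X Y ↔
      OddPaths (mkI vs es k X Y).1.2 k (mkI vs es k X Y).2.2.1 (mkI vs es k X Y).2.2.2 := by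
  have h : ∀ x ∈ vs.dedup, vs.dedup.getD (vs.dedup.idxOf x) d = x := fun x hx => by
    simp [List.idxOf_lt_length_of_mem hx]
  refine ⟨OddPaths.map _ (S := {x | x ∈ vs.dedup}) (fun x hx y _ e => (List.idxOf_inj hx).1 e)
    hE hX.2.2 hY.2.2, fun H => ?_⟩
  have v := mkI_valid hE hk hX hY
  simp only [Valid, mkI, mkGr_n] at v
  have := H.map (fun i => vs.dedup.getD i d) (S := {i | i < vs.dedup.length})
    (fun i hi j hj e => by
      rw [mem_ofPred] at hi hj
      simpa [hi, hj, (List.nodup_dedup _).getElem_inj_iff] using e) v.1 v.2.2.1.2.2 v.2.2.2.2.2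
  simp only [mkGr, List.map_map, Function.comp_def] at this
  rwa [List.map_congr_left (g := fun x => x) fun e he => Prod.ext (h _ (hE e he).1) (h _ (hE e he).2),
    List.map_congr_left fun e he => h _ (hX.2.2 e he),
    List.map_congr_left fun e he => h _ (hY.2.2 e he), List.map_id', List.map_id',
    List.map_id'] at this

lemma mkI_pt {α : Type} [Enc α] [Enc V] {vs X Y : α → List V} {es : α → List (V × V)} {k : α → ℕ}
    (h1 : PT vs) (h2 : PT es) (h3 : PT k) (h4 : PT X) (h5 : PT Y) :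
    PT fun a => mkI (vs a) (es a) (k a) (X a) (Y a) := by
  unfold mkI
  fun_prop

end

lemma tm_vs (t : ℕ) (ht : t < 4) : (tm φ t).Nodup ∧ (tm φ t).length = 4 * φ.length + 1 ∧
    ∀ p ∈ tm φ t, p ∈ (vs φ).dedup := by
  refine ⟨List.nodup_range.map fun a b e => by simpa using e, by simp [tm], fun p hp => ?_⟩
  rw [List.mem_dedup, mem_vs]
  rw [mem_tm] at hp
  exact .inl (by omega)

lemma es_vs : ∀ e ∈ es φ, e.1 ∈ (vs φ).dedup ∧ e.2 ∈ (vs φ).dedup := fun e he => by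
  simpa only [List.mem_dedup, mem_vs] using (mem_es.1 he).1

set_option synthInstance.maxSize 4000 in
lemma hard : NPHard fun a : {a // Valid a} => OddPaths a.1.1.2 a.1.2.1 a.1.2.2.1 a.1.2.2.2 := by
  refine NPHard.of_sat3 (fun φ => ⟨mkI (vs φ) (es φ) (4 * φ.length + 1) (tm φ 0) (tm φ 3),
    mkI_valid es_vs (Nat.succ_pos _) (tm_vs 0 (by omega)) (tm_vs 3 (by omega))⟩) (PT.subtype ?_ _)
    fun φ h => Iff.trans ⟨fwd h, bwd⟩
      (mkI_iff (0, 0, 0) es_vs (Nat.succ_pos _) (tm_vs 0 (by omega)) (tm_vs 3 (by omega)))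
  have h1 : PT vs := by unfold vs; fun_prop
  have h2 : PT es := by unfold es rel occ lits; fun_prop
  exact mkI_pt h1 h2 (by fun_prop) (by unfold tm; fun_prop) (by unfold tm; fun_prop)

set_option synthInstance.maxSize 4000 in
lemma np : InNP fun a : I => Valid a ∧ OddPaths a.1.2 a.2.1 a.2.2.1 a.2.2.2 := by
  refine InNP.of_cert' (fun (a : I) (c : List (List ℕ × List ℕ)) =>
    ((∀ e ∈ a.1.2, e.1 < a.1.n ∧ e.2 < a.1.n) ∧ 0 < a.2.1 ∧
    (a.2.2.1.Nodup ∧ a.2.2.1.length = a.2.1 ∧ ∀ x ∈ a.2.2.1, x < a.1.n) ∧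
    (a.2.2.2.Nodup ∧ a.2.2.2.length = a.2.1 ∧ ∀ y ∈ a.2.2.2, y < a.1.n)) ∧ c.length = a.2.1 ∧
    (∀ p ∈ c, p.2.length % 2 = 1 ∧
      (∀ i < p.2.length + 1, ∀ j < p.2.length + 1, p.1.getD i 0 = p.1.getD j 0 → i = j) ∧
      (∀ i < p.2.length, a.1.2[p.2.getD i 0]? = some (p.1.getD i 0, p.1.getD (i + 1) 0) ∨
        a.1.2[p.2.getD i 0]? = some (p.1.getD (i + 1) 0, p.1.getD i 0)) ∧
      p.1.getD 0 0 ∈ a.2.2.1 ∧ p.1.getD p.2.length 0 ∈ a.2.2.2 ∧
      ∀ i < p.2.length, 0 < i → p.1.getD i 0 ∉ a.2.2.1 ∧ p.1.getD i 0 ∉ a.2.2.2) ∧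
    ∀ s < c.length, ∀ t < c.length, s ≠ t →
      ((∃ e ∈ (c.getD s ([], [])).2, e ∉ (c.getD t ([], [])).2) ∨
        ∃ e ∈ (c.getD t ([], [])).2, e ∉ (c.getD s ([], [])).2) ∧
      ∀ i < (c.getD s ([], [])).2.length, ∀ j < (c.getD t ([], [])).2.length, 0 < i → 0 < j →
        (c.getD s ([], [])).1.getD i 0 ≠ (c.getD t ([], [])).1.getD j 0)
    (fun a => a.2.2.1.length * (a.1.n * (size a.1.n + size a.1.2.length + 2) + 6) + 2)
    (by fun_prop) (by fun_prop) ?_ ?_
  · rintro ⟨⟨u, E⟩, k, X, Y⟩ c ⟨h0, h1, h2, h3⟩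
    dsimp only at h1 h2
    subst h1
    have im : ∀ l : List ℕ, (fun i => l.getD i 0) '' Iio l.length = {e | e ∈ l} := fun l => by
      ext e
      simp only [mem_image, mem_Iio, mem_ofPred, List.mem_iff_getElem]
      exact ⟨fun ⟨i, h, e⟩ => ⟨i, h, by simpa [h] using e⟩, fun ⟨i, h, e⟩ => ⟨i, h, by simpa [h] using e⟩⟩
    refine ⟨h0, fun s => (c.getD s ([], [])).2.length, fun s i => (c.getD s ([], [])).1.getD i 0,
      fun s i => (c.getD s ([], [])).2.getD i 0, fun s => ?_, fun s t st => ?_⟩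
    · obtain ⟨a1, a2, a3, a4, a5, a6⟩ := h2 (c.getD s ([], [])) (by simp)
      exact ⟨Nat.odd_iff.2 a1, fun i hi j hj => a2 i (Nat.lt_succ_of_le hi) j (Nat.lt_succ_of_le hj),
        a3, a4, a5, fun i h4 h5 => a6 i h5 h4⟩
    · obtain ⟨a1, a2⟩ := h3 s s.2 t t.2 fun e => st (Fin.ext e)
      refine ⟨?_, fun i j h4 h5 h6 h7 => a2 i h5 j h7 h4 h6⟩
      rw [im, im]
      intro e
      rcases a1 with ⟨x, h4, h5⟩ | ⟨x, h4, h5⟩
      exacts [h5 (e.le h4), h5 (e.ge h4)]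
  · rintro ⟨⟨u, E⟩, k, X, Y⟩ ⟨h0, L, f, g, h1, h2⟩
    dsimp only at L f g h1 h2 ⊢
    have hf := fun a => ends (S := {x | x < u.length}) h0.1 (h1 a).1 (h1 a).2.2.1
    have hL : ∀ a, L a + 1 ≤ u.length := fun a => by
      simpa using Finset.card_le_card_of_injOn (s := Finset.Iic (L a)) (t := Finset.range u.length) (f a)
        (fun i hi => by simpa using hf a i (by simpa using hi)) (by simpa using (h1 a).2.1)
    have gd : ∀ (h : ℕ → ℕ) n i, i < n → ((List.range n).map h).getD i 0 = h i := fun h n i hi => by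
      simp [hi]
    have gc : ∀ s (hs : s < k), (List.ofFn fun a =>
        ((List.range (L a + 1)).map (f a), (List.range (L a)).map (g a))).getD s ([], []) =
        ((List.range (L ⟨s, hs⟩ + 1)).map (f ⟨s, hs⟩), (List.range (L ⟨s, hs⟩)).map (g ⟨s, hs⟩)) :=
      fun s hs => by simp [hs]
    refine ⟨List.ofFn fun a => ((List.range (L a + 1)).map (f a), (List.range (L a)).map (g a)),
      ?_, h0, by simp, ?_, ?_⟩
    · refine (size_list_le (B := u.length * (size u.length + size E.length + 2) + 5) ?_).trans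
        (by rw [List.length_ofFn, h0.2.2.1.2.1])
      simp only [List.forall_mem_ofFn_iff, size_pair]
      intro a
      have b1 := size_list_le (l := (List.range (L a + 1)).map (f a)) (B := size u.length)
        (List.forall_mem_map.2 fun i hi => size_nat_mono
          (hf a i (Nat.le_of_lt_succ (List.mem_range.1 hi))).le)
      have b2 := size_list_le (l := (List.range (L a)).map (g a)) (B := size E.length)
        (List.forall_mem_map.2 fun i hi => size_nat_mono (by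
          rcases (h1 a).2.2.1 i (List.mem_range.1 hi) with e | e <;>
            exact (List.getElem?_eq_some_iff.1 e).1.le))
      have := Nat.mul_le_mul_right (size u.length + 1) (hL a)
      have := Nat.mul_le_mul_right (size E.length + 1) (Nat.le_of_succ_le (hL a))
      rw [List.length_map, List.length_range] at b1 b2
      linarith
    · simp only [List.forall_mem_ofFn_iff, List.length_map, List.length_range]
      intro a
      obtain ⟨a1, a2, a3, a4, a5, a6⟩ := h1 a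
      refine ⟨Nat.odd_iff.1 a1, fun i hi j hj => ?_, fun i hi => ?_, ?_, ?_, fun i hi h3 => ?_⟩
      · rw [gd _ _ _ hi, gd _ _ _ hj]
        exact a2 (Nat.le_of_lt_succ hi) (Nat.le_of_lt_succ hj)
      · rw [gd _ _ _ hi, gd _ _ i (by omega), gd _ _ _ (by omega)]
        exact a3 i hi
      · rwa [gd _ _ _ (by omega)]
      · rwa [gd _ _ _ (by omega)]
      · rw [gd _ _ _ (by omega)]
        exact a6 i h3 hi
    · rw [List.length_ofFn]
      intro s hs t ht st
      obtain ⟨a1, a2⟩ := h2 ⟨s, hs⟩ ⟨t, ht⟩ (by simpa using st)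
      rw [gc s hs, gc t ht]
      simp only [List.length_map, List.length_range]
      refine ⟨by_contra fun h => a1 ?_, fun i hi j hj h3 h4 => ?_⟩
      · push Not at h
        simp only [List.mem_map, List.mem_range] at h
        exact Subset.antisymm h.1 h.2
      · rw [gd _ _ _ (by omega), gd _ _ _ (by omega)]
        exact a2 i j h3 hi h4 hj

theorem result :
    (NPComplete fun a : {a // Valid a} => OddPaths a.1.1.2 a.1.2.1 a.1.2.2.1 a.1.2.2.2) ∧
    ((InNP fun a : {a // Valid a} => ¬ OddPaths a.1.1.2 a.1.2.1 a.1.2.2.1 a.1.2.2.2) ↔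
      ∀ A : List Bool → Prop, InNP A → InNP fun x => ¬ A x) :=
  ⟨⟨np.red ⟨Subtype.val, PT.id.cast fun _ => rfl, fun a => by simp [a.2]⟩, hard⟩, co_to hard,
    fun H => (co_of np H).red ⟨Subtype.val, PT.id.cast fun _ => rfl, fun a => by simp [a.2]⟩⟩

end Pool.Agent.Results.MP_636301_lc.Full
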